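import Mathlib

/-!
The formula `α_d(k) = (d+1)/(k+1)` for largest induced `d`-degenerate subgraphs of graphs of
degeneracy `k` fails for `(k,d) = (3,2), (4,1), (4,2), (4,3)`.
-/

namespace Pool.Agent.Results.MP_f95752_co.SmallCounterexamples

/-- A graph is `d`-degenerate if every (nonempty) subgraph has a vertex of degree at most `d`. -/
def Degenerate {V : Type} (G : SimpleGraph V) (d : ℕ) : Prop :=
  ∀ H : G.Subgraph, H.verts.Nonempty → ∃ v ∈ H.verts, (H.neighborSet v).ncard ≤ d

/-- The degeneracy of a graph: the least `d` such that it is `d`-degenerate. -/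
noncomputable def degeneracy {V : Type} (G : SimpleGraph V) : ℕ := sInf {d | Degenerate G d}

/-- The largest number of vertices of an induced `d`-degenerate subgraph. -/
noncomputable def alpha {V : Type} (d : ℕ) (G : SimpleGraph V) : ℕ :=
  sSup {m | ∃ S : Set V, Degenerate (G.induce S) d ∧ S.ncard = m}

/-- `α_d(k)`: the infimum of `α_d(G)/|V(G)|` over the finite graphs of degeneracy exactly `k`. -/
noncomputable def alphaInf (d k : ℕ) : ℝ :=
  sInf {x : ℝ | ∃ (n : ℕ) (G : SimpleGraph (Fin n)), 0 < n ∧ degeneracy G = k ∧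
    x = (alpha d G : ℝ) / (n : ℝ)}

/-! ### degeneracy through vertex subsets -/

lemma not_degenerate_of_core {V : Type} [Finite V] (G : SimpleGraph V) (d : ℕ) (S T : Set V)
    (hTS : T ⊆ S) (hT : T.Nonempty) (h : ∀ v ∈ T, d + 1 ≤ {w | w ∈ T ∧ G.Adj v w}.ncard) :
    ¬ Degenerate (G.induce S) d := by
  intro hdeg
  let H : (G.induce S).Subgraph := (⊤ : (G.induce S).Subgraph).induce {x | x.1 ∈ T}
  obtain ⟨t, ht⟩ := hT
  obtain ⟨⟨v, hvS⟩, hv, hle⟩ := hdeg H ⟨⟨t, hTS ht⟩, ht⟩
  have hvT : v ∈ T := hv
  have h1 := h v hvT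
  have h2 : {w | w ∈ T ∧ G.Adj v w} = (fun x : S => x.1) '' (H.neighborSet ⟨v, hvS⟩) := by
    ext w
    constructor
    · rintro ⟨hwT, hvw⟩
      refine ⟨⟨w, hTS hwT⟩, ?_, rfl⟩
      change H.Adj ⟨v, hvS⟩ ⟨w, hTS hwT⟩
      simp only [H, SimpleGraph.Subgraph.induce_adj, SimpleGraph.Subgraph.top_adj,
        SimpleGraph.comap_adj]
      exact ⟨hvT, hwT, hvw⟩
    · rintro ⟨⟨x, hxS⟩, hx, rfl⟩
      have hx' : H.Adj ⟨v, hvS⟩ ⟨x, hxS⟩ := hx
      simp only [H, SimpleGraph.Subgraph.induce_adj, SimpleGraph.Subgraph.top_adj,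
        SimpleGraph.comap_adj] at hx'
      exact ⟨hx'.2.1, hx'.2.2⟩
  rw [h2, Set.ncard_image_of_injective _ Subtype.val_injective] at h1
  omega

lemma degenerate_of_subsets {V : Type} [Finite V] (G : SimpleGraph V) (d : ℕ)
    (h : ∀ T : Set V, T.Nonempty → ∃ v ∈ T, {w | w ∈ T ∧ G.Adj v w}.ncard ≤ d) :
    Degenerate G d := by
  intro H hH
  obtain ⟨v, hv, hle⟩ := h H.verts hH
  refine ⟨v, hv, le_trans (Set.ncard_le_ncard ?_ (Set.toFinite _)) hle⟩
  intro w hw
  have hw' : H.Adj v w := hw
  exact ⟨H.edge_vert hw'.symm, H.adj_sub hw'⟩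

lemma not_degenerate_of_core' {V : Type} [Finite V] (G : SimpleGraph V) (d : ℕ) (T : Set V)
    (hT : T.Nonempty) (h : ∀ v ∈ T, d + 1 ≤ {w | w ∈ T ∧ G.Adj v w}.ncard) :
    ¬ Degenerate G d := by
  intro hdeg
  let H : G.Subgraph := (⊤ : G.Subgraph).induce T
  obtain ⟨v, hv, hle⟩ := hdeg H hT
  have h1 := h v hv
  have h2 : {w | w ∈ T ∧ G.Adj v w} ⊆ H.neighborSet v := by
    rintro w ⟨hwT, hvw⟩
    change H.Adj v w
    simp only [H, SimpleGraph.Subgraph.induce_adj, SimpleGraph.Subgraph.top_adj]
    exact ⟨hv, hwT, hvw⟩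
  have := Set.ncard_le_ncard h2 (Set.toFinite _)
  omega

lemma Degenerate.mono {V : Type} {G : SimpleGraph V} {d e : ℕ} (hde : d ≤ e)
    (h : Degenerate G d) : Degenerate G e := by
  intro H hH
  obtain ⟨v, hv, hle⟩ := h H hH
  exact ⟨v, hv, hle.trans hde⟩

/-! ### computing with masks -/

/-- The graph on `Fin n` whose adjacency is given by a list of bit masks. -/
def ofMasks (n : ℕ) (A : List ℕ) : SimpleGraph (Fin n) where
  Adj u v := u ≠ v ∧ ((A.getD u.1 0).testBit v.1 = true ∨ (A.getD v.1 0).testBit u.1 = true)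
  symm := ⟨fun _ _ h => ⟨h.1.symm, h.2.symm⟩⟩
  loopless := ⟨fun _ h => h.1 rfl⟩

/-- Search over all vertex sets: every set either contains a core or is small. -/
def chk (cores : List ℕ) (m : ℕ) : ℕ → ℕ → ℕ → Bool
  | 0, mask, cnt => cores.any (fun T => T &&& mask == T) || decide (cnt < m)
  | i + 1, mask, cnt => cores.any (fun T => T &&& mask == T) || decide (cnt + (i + 1) < m) ||
      (chk cores m i mask cnt && chk cores m i (mask ||| 2 ^ i) (cnt + 1))

lemma chk_sound (cores : List ℕ) (m : ℕ) (S : ℕ → Prop) [DecidablePred S] :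
    ∀ i mask cnt, (∀ j, mask.testBit j = true → S j) → chk cores m i mask cnt = true →
      (∃ T ∈ cores, ∀ j, T.testBit j = true → S j) ∨
      cnt + ((Finset.range i).filter S).card < m := by
  intro i
  induction i with
  | zero =>
    intro mask cnt hm h
    simp only [chk, Bool.or_eq_true, List.any_eq_true, beq_iff_eq, decide_eq_true_eq] at h
    rcases h with ⟨T, hT, hTm⟩ | h
    · left
      refine ⟨T, hT, fun j hj => hm j ?_⟩
      have : (T &&& mask).testBit j = true := by rw [hTm]; exact hj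
      rw [Nat.testBit_land, Bool.and_eq_true] at this
      exact this.2
    · right; simpa using h
  | succ i ih =>
    intro mask cnt hm h
    simp only [chk, Bool.or_eq_true, Bool.and_eq_true, List.any_eq_true, beq_iff_eq,
      decide_eq_true_eq] at h
    rcases h with (⟨T, hT, hTm⟩ | h) | ⟨h1, h2⟩
    · left
      refine ⟨T, hT, fun j hj => hm j ?_⟩
      have : (T &&& mask).testBit j = true := by rw [hTm]; exact hj
      rw [Nat.testBit_land, Bool.and_eq_true] at this
      exact this.2
    · right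
      have : ((Finset.range (i + 1)).filter S).card ≤ i + 1 :=
        (Finset.card_filter_le _ _).trans (by simp)
      omega
    · by_cases hS : S i
      · have hm' : ∀ j, (mask ||| 2 ^ i).testBit j = true → S j := by
          intro j hj
          rw [Nat.testBit_lor, Bool.or_eq_true] at hj
          rcases hj with hj | hj
          · exact hm j hj
          · rw [Nat.testBit_two_pow] at hj
            simp only [decide_eq_true_eq] at hj
            rw [← hj]; exact hS
        rcases ih _ _ hm' h2 with h | h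
        · exact Or.inl h
        · right
          rw [Finset.range_add_one, Finset.filter_insert, if_pos hS,
            Finset.card_insert_of_notMem (by simp)]
          omega
      · rcases ih _ _ hm h1 with h | h
        · exact Or.inl h
        · right
          rw [Finset.range_add_one, Finset.filter_insert, if_neg hS]
          exact h

instance (n : ℕ) (A : List ℕ) : DecidableRel (ofMasks n A).Adj := fun u v => by
  change Decidable (_ ∧ _); infer_instance

/-- Each core has at least one vertex and minimum degree at least `d + 1`. -/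
def coresOK (n : ℕ) (A : List ℕ) (d : ℕ) (cores : List ℕ) : Prop :=
  ∀ T ∈ cores, (∃ v : Fin n, T.testBit v.1 = true) ∧ ∀ v : Fin n, T.testBit v.1 = true →
    d + 1 ≤ ((List.finRange n).filter
      (fun w => T.testBit w.1 && decide ((ofMasks n A).Adj v w))).length

instance (n : ℕ) (A : List ℕ) (d : ℕ) (cores : List ℕ) : Decidable (coresOK n A d cores) := by
  unfold coresOK; infer_instance

lemma ncard_eq_length {n : ℕ} (P : Fin n → Bool) :
    {w | P w = true}.ncard = ((List.finRange n).filter P).length := by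
  classical
  have : {w | P w = true} = ((((List.finRange n).filter P).toFinset : Finset (Fin n)) :
      Set (Fin n)) := by
    ext w; simp
  rw [this, Set.ncard_coe_finset, List.toFinset_card_of_nodup]
  exact (List.nodup_finRange n).filter _

lemma alpha_le (n : ℕ) (A : List ℕ) (d m : ℕ) (cores : List ℕ)
    (hc : coresOK n A d cores) (h : chk cores (m + 1) n 0 0 = true) :
    alpha d (ofMasks n A) ≤ m := by
  classical
  unfold alpha
  apply csSup_le'
  rintro x ⟨S, hS, rfl⟩
  by_contra hlt
  rcases chk_sound cores (m + 1) (fun j => ∃ hj : j < n, (⟨j, hj⟩ : Fin n) ∈ S) n 0 0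
    (by intro j hj; simp at hj) h with ⟨T, hT, hTS⟩ | hsmall
  · obtain ⟨⟨t, ht⟩, hdeg⟩ := hc T hT
    refine not_degenerate_of_core (ofMasks n A) d S {v | T.testBit v.1 = true} ?_ ⟨t, ht⟩ ?_ hS
    · intro v hv
      obtain ⟨_, h⟩ := hTS v.1 hv
      exact h
    · intro v hv
      have := hdeg v hv
      rw [← ncard_eq_length] at this
      simpa using this
  · apply hlt
    have : S.ncard = ((Finset.range n).filter
        (fun j => ∃ hj : j < n, (⟨j, hj⟩ : Fin n) ∈ S)).card := by
      rw [← Set.ncard_coe_finset, ← Set.ncard_image_of_injective S Fin.val_injective]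
      congr 1
      ext j
      simp only [Set.mem_image, Finset.coe_filter, Finset.mem_range, Set.mem_ofPred_eq]
      constructor
      · rintro ⟨v, hv, rfl⟩
        exact ⟨v.2, v.2, hv⟩
      · rintro ⟨_, hj, hv⟩
        exact ⟨⟨j, hj⟩, hv, rfl⟩
    omega

/-- If every vertex has at most `k` neighbours of smaller index, the graph is `k`-degenerate. -/
lemma degenerate_of_order (n : ℕ) (G : SimpleGraph (Fin n)) [DecidableRel G.Adj] (k : ℕ)
    (h : ∀ v : Fin n, ((List.finRange n).filter
      (fun w => decide (w < v) && decide (G.Adj v w))).length ≤ k) :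
    Degenerate G k := by
  apply degenerate_of_subsets
  intro T hT
  obtain ⟨v, hv, hmax⟩ := Set.exists_max_image T id (Set.toFinite T) hT
  refine ⟨v, hv, ?_⟩
  have h1 := h v
  rw [← ncard_eq_length] at h1
  refine le_trans (Set.ncard_le_ncard ?_ (Set.toFinite _)) h1
  rintro w ⟨hw, hvw⟩
  have : w ≤ v := hmax w hw
  have hne : w ≠ v := hvw.ne'
  simp only [Set.mem_ofPred_eq, Bool.and_eq_true, decide_eq_true_eq]
  exact ⟨lt_of_le_of_ne this hne, hvw⟩

lemma degeneracy_eq (n : ℕ) (G : SimpleGraph (Fin n)) [DecidableRel G.Adj] (k : ℕ)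
    (h : ∀ v : Fin n, ((List.finRange n).filter
      (fun w => decide (w < v) && decide (G.Adj v w))).length ≤ k)
    (hn : k < n)
    (h2 : ∀ u v : Fin n, u.1 ≤ k → v.1 ≤ k → u ≠ v → G.Adj u v) :
    degeneracy G = k := by
  unfold degeneracy
  apply le_antisymm
  · exact Nat.sInf_le (degenerate_of_order n G k h)
  · apply le_csInf ⟨k, degenerate_of_order n G k h⟩
    intro d hd
    by_contra hlt
    push Not at hlt
    refine not_degenerate_of_core' G d {v | v.1 ≤ k} ⟨⟨0, by omega⟩, by simp⟩ ?_ hd
    intro v hv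
    have h3 : {w | w ∈ {v : Fin n | v.1 ≤ k} ∧ G.Adj v w} = {w : Fin n | w.1 ≤ k} \ {v} := by
      ext w
      constructor
      · rintro ⟨h, h'⟩
        exact ⟨h, fun e => h'.ne (by simpa using e.symm)⟩
      · rintro ⟨h, h'⟩
        exact ⟨h, h2 v w hv h (fun e => h' e.symm)⟩
    have h4 : {w : Fin n | w.1 ≤ k}.ncard = k + 1 := by
      rw [← Set.ncard_image_of_injective _ Fin.val_injective]
      have : Fin.val '' {w : Fin n | w.1 ≤ k} = ((Finset.range (k + 1) : Finset ℕ) : Set ℕ) := by
        ext j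
        simp only [Set.mem_image, Set.mem_ofPred_eq, Finset.coe_range, Set.mem_Iio]
        constructor
        · rintro ⟨w, hw, rfl⟩; omega
        · intro hj; exact ⟨⟨j, by omega⟩, by simp; omega, rfl⟩
      rw [this, Set.ncard_coe_finset, Finset.card_range]
    rw [h3, Set.ncard_sdiff_singleton_of_mem hv, h4]
    omega

lemma alphaInf_le {n : ℕ} (G : SimpleGraph (Fin n)) (d k m : ℕ) (hn : 0 < n)
    (hG : degeneracy G = k) (hm : alpha d G ≤ m) : alphaInf d k ≤ (m : ℝ) / (n : ℝ) := by
  unfold alphaInf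
  have hmem : ((alpha d G : ℝ) / (n : ℝ)) ∈ {x : ℝ | ∃ (n : ℕ) (G : SimpleGraph (Fin n)), 0 < n ∧
      degeneracy G = k ∧ x = (alpha d G : ℝ) / (n : ℝ)} := ⟨n, G, hn, hG, rfl⟩
  have hbdd : BddBelow {x : ℝ | ∃ (n : ℕ) (G : SimpleGraph (Fin n)), 0 < n ∧
      degeneracy G = k ∧ x = (alpha d G : ℝ) / (n : ℝ)} := by
    refine ⟨0, ?_⟩
    rintro x ⟨n, G, _, _, rfl⟩
    positivity
  refine (csInf_le hbdd hmem).trans ?_
  gcongr


/-- Adjacency masks of a graph on 13 vertices of degeneracy 3. -/
def adjA : List ℕ := [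
  62, 397, 123, 215, 301, 469, 3628, 5674, 4658, 3520, 2752, 5696, 2432]

/-- Minimal vertex sets inducing minimum degree at least 3. -/
def coresA : List ℕ := [
  15, 29, 53, 3648, 109, 124, 187, 190, 238, 315, 318, 442, 998, 1002, 1016, 1742, 1772, 7136,
    990, 1767, 1771, 1785, 2036, 7114, 2007, 2011, 2035, 7132, 7654, 7658, 7668, 7672, 7127,
    7639, 7643, 7646, 7667, 8087, 8091, 8094, 8103, 8107, 8109, 8110, 8115, 8118, 8121, 8124]

lemma degA : degeneracy (ofMasks 13 adjA) = 3 :=
  degeneracy_eq 13 _ 3 (by decide +kernel) (by norm_num) (by decide +kernel)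

lemma alphaA : alpha 2 (ofMasks 13 adjA) ≤ 9 :=
  alpha_le 13 adjA 2 9 coresA (by decide +kernel) (by decide +kernel)

/-- Adjacency masks of a graph on 13 vertices of degeneracy 4. -/
def adjB : List ℕ := [
  126, 189, 123, 2007, 175, 2391, 6061, 4954, 3816, 3528, 6984, 5920, 3264]

/-- Minimal vertex sets inducing minimum degree at least 2. -/
def coresB : List ℕ := [
  7, 11, 13, 14, 19, 21, 22, 25, 26, 28, 35, 37, 38, 49, 50, 52, 69, 73, 76, 97, 100, 138, 146,
    152, 200, 328, 352, 392, 448, 584, 648, 704, 776, 832, 896, 1096, 1288, 1344, 1544, 1600,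
    1792, 2336, 2816, 3328, 3584, 4288, 5184, 7168, 106, 120, 195, 198, 209, 212, 226, 240,
    297, 298, 300, 312, 418, 432, 2656, 3168, 5256, 5504, 5760, 6240, 6464, 6528, 6720, 6784,
    2601, 2602, 2604, 2616, 2722, 2736, 3113, 3114, 3116, 3128, 6306, 6320, 6313, 6316]

lemma degB : degeneracy (ofMasks 13 adjB) = 4 :=
  degeneracy_eq 13 _ 4 (by decide +kernel) (by norm_num) (by decide +kernel)

lemma alphaB : alpha 1 (ofMasks 13 adjB) ≤ 5 :=
  alpha_le 13 adjB 1 5 coresB (by decide +kernel) (by decide +kernel)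

/-- Adjacency masks of a graph on 9 vertices of degeneracy 4. -/
def adjC : List ℕ := [
  254, 125, 123, 407, 111, 407, 407, 361, 232]

/-- Minimal vertex sets inducing minimum degree at least 3. -/
def coresC : List ℕ := [
  15, 23, 27, 29, 30, 39, 51, 53, 54, 71, 83, 85, 86, 171, 173, 185, 203, 205, 217, 227, 229,
    241, 425, 457, 481, 238, 250, 252, 363, 365, 366, 377, 378, 380, 430, 442, 444, 462, 474,
    476, 486, 490, 492, 498, 500, 504]

lemma degC : degeneracy (ofMasks 9 adjC) = 4 :=
  degeneracy_eq 9 _ 4 (by decide +kernel) (by norm_num) (by decide +kernel)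

lemma alphaC : alpha 2 (ofMasks 9 adjC) ≤ 5 :=
  alpha_le 9 adjC 2 5 coresC (by decide +kernel) (by decide +kernel)


/-! ### the general family for `d = k - 1` -/

/-- Adjacency between vertices `u < v` of the graph on `0, ..., 2k`: the vertices `0, ..., k` form
a clique, `k + j` (for `j ≥ 1`) is joined to all of them except `j`, `k + 2` is moreover not joined
to `0`, and `k + 1` is joined to `k + 2`. -/
def adjLt (k u v : ℕ) : Prop :=
  v ≤ k ∨ (u ≤ k ∧ k < v ∧ v ≠ k + u ∧ ¬ (u = 0 ∧ v = k + 2)) ∨ (u = k + 1 ∧ v = k + 2)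

/-- The graph of the general family. -/
def fam (k : ℕ) : SimpleGraph (Fin (2 * k + 1)) where
  Adj u v := (u.1 < v.1 ∧ adjLt k u.1 v.1) ∨ (v.1 < u.1 ∧ adjLt k v.1 u.1)
  symm := ⟨fun _ _ h => h.symm⟩
  loopless := ⟨fun v h => by rcases h with h | h <;> exact lt_irrefl _ h.1⟩

lemma ncard_of_fin {n : ℕ} (P : ℕ → Prop) [DecidablePred P] :
    {w : Fin n | P w.1}.ncard = ((Finset.range n).filter P).card := by
  rw [← Set.ncard_image_of_injective _ Fin.val_injective, ← Set.ncard_coe_finset]
  congr 1
  ext j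
  simp only [Set.mem_image, Set.mem_ofPred_eq, Finset.coe_filter, Finset.mem_range]
  constructor
  · rintro ⟨w, hw, rfl⟩; exact ⟨w.2, hw⟩
  · rintro ⟨hj, hP⟩; exact ⟨⟨j, hj⟩, hP, rfl⟩

lemma fam_degenerate (k : ℕ) (hk : 2 ≤ k) : Degenerate (fam k) k := by
  classical
  apply degenerate_of_subsets
  intro T hT
  obtain ⟨v, hv, hmax⟩ := Set.exists_max_image T (fun v => v.1) (Set.toFinite T) hT
  refine ⟨v, hv, ?_⟩
  have hvlt := v.2
  -- the neighbours below `v` are mapped injectively into `range k`
  have hsub : {w | w ∈ T ∧ (fam k).Adj v w} ⊆ {w : Fin (2 * k + 1) | w.1 < v.1 ∧ adjLt k w.1 v.1} := by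
    rintro w ⟨hw, hvw⟩
    have hle : w.1 ≤ v.1 := hmax w hw
    rcases hvw with h | h
    · omega
    · exact h
  refine (Set.ncard_le_ncard hsub (Set.toFinite _)).trans ?_
  rw [ncard_of_fin (fun w => w < v.1 ∧ adjLt k w v.1)]
  by_cases h1 : v.1 ≤ k
  · refine (Finset.card_le_card (t := Finset.range k) ?_).trans (by simp)
    intro w hw
    simp only [Finset.mem_filter, Finset.mem_range] at hw ⊢
    omega
  · by_cases h2 : v.1 = k + 2
    · have hs : (Finset.range (2 * k + 1)).filter (fun w => w < v.1 ∧ adjLt k w v.1) ⊆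
          ((Finset.range (k + 2)).erase 0).erase 2 := by
        intro w hw
        rw [Finset.mem_filter, Finset.mem_range] at hw
        obtain ⟨hw1, hw2, hw3⟩ := hw
        unfold adjLt at hw3
        simp only [Finset.mem_range, Finset.mem_erase]
        omega
      refine (Finset.card_le_card hs).trans ?_
      rw [Finset.card_erase_of_mem (by simp; omega), Finset.card_erase_of_mem (by simp),
          Finset.card_range]
      omega
    · have hs : (Finset.range (2 * k + 1)).filter (fun w => w < v.1 ∧ adjLt k w v.1) ⊆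
          (Finset.range (k + 1)).erase (v.1 - k) := by
        intro w hw
        rw [Finset.mem_filter, Finset.mem_range] at hw
        obtain ⟨hw1, hw2, hw3⟩ := hw
        unfold adjLt at hw3
        simp only [Finset.mem_range, Finset.mem_erase]
        omega
      refine (Finset.card_le_card hs).trans ?_
      rw [Finset.card_erase_of_mem (by simp; omega), Finset.card_range]
      omega

lemma fam_degeneracy (k : ℕ) (hk : 2 ≤ k) : degeneracy (fam k) = k := by
  classical
  unfold degeneracy
  apply le_antisymm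
  · exact Nat.sInf_le (fam_degenerate k hk)
  · apply le_csInf ⟨k, fam_degenerate k hk⟩
    intro d hd
    by_contra hlt
    push Not at hlt
    refine not_degenerate_of_core' (fam k) d {v | v.1 ≤ k} ⟨⟨0, by omega⟩, by simp⟩ ?_ hd
    intro v hv
    have hv' : v.1 ≤ k := hv
    have h3 : {w : Fin (2 * k + 1) | w.1 ≤ k ∧ w.1 ≠ v.1} ⊆
        {w | w ∈ {v : Fin (2 * k + 1) | v.1 ≤ k} ∧ (fam k).Adj v w} := by
      rintro w ⟨h, h'⟩
      refine ⟨h, ?_⟩
      rcases lt_or_gt_of_ne h' with h' | h'
      · exact Or.inr ⟨h', Or.inl hv'⟩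
      · exact Or.inl ⟨h', Or.inl h⟩
    refine le_trans ?_ (Set.ncard_le_ncard h3 (Set.toFinite _))
    rw [ncard_of_fin (fun w => w ≤ k ∧ w ≠ v.1)]
    refine le_trans ?_ (Finset.card_le_card (s := (Finset.range (k + 1)).erase v.1) ?_)
    · rw [Finset.card_erase_of_mem (by simp; omega), Finset.card_range]; omega
    · intro w hw
      simp only [Finset.mem_filter, Finset.mem_range, Finset.mem_erase] at hw ⊢
      omega

/-- A set of vertices given by a predicate on the indices, each member of which has at least `k`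
neighbours in it, cannot be contained in a `(k-1)`-degenerate induced subgraph. -/
lemma fam_core (k : ℕ) (hk : 2 ≤ k) (S : Set (Fin (2 * k + 1))) (R : Finset ℕ) (hR : R.Nonempty)
    (hRlt : ∀ j ∈ R, j < 2 * k + 1)
    (hRS : ∀ v : Fin (2 * k + 1), v.1 ∈ R → v ∈ S)
    (F : ℕ → Finset ℕ)
    (hF : ∀ j ∈ R, k ≤ (F j).card ∧ F j ⊆ R ∧ ∀ i ∈ F j, (i < j ∧ adjLt k i j) ∨
      (j < i ∧ adjLt k j i)) :
    ¬ Degenerate ((fam k).induce S) (k - 1) := by
  classical
  obtain ⟨r, hr⟩ := hR
  refine not_degenerate_of_core (fam k) (k - 1) S {v | v.1 ∈ R} (fun v hv => hRS v hv)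
    ⟨⟨r, hRlt r hr⟩, hr⟩ ?_
  intro v hv
  obtain ⟨h1, h2, h3⟩ := hF v.1 hv
  have hsub : {w : Fin (2 * k + 1) | w.1 ∈ F v.1} ⊆
      {w | w ∈ {v : Fin (2 * k + 1) | v.1 ∈ R} ∧ (fam k).Adj v w} := by
    intro w hw
    refine ⟨h2 hw, ?_⟩
    rcases h3 w.1 hw with h | h
    · exact Or.inr h
    · exact Or.inl h
  refine le_trans ?_ (Set.ncard_le_ncard hsub (Set.toFinite _))
  rw [ncard_of_fin (fun w => w ∈ F v.1)]
  have : (Finset.range (2 * k + 1)).filter (fun w => w ∈ F v.1) = F v.1 := by
    ext w
    simp only [Finset.mem_filter, Finset.mem_range]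
    exact ⟨fun h => h.2, fun h => ⟨hRlt w (h2 h), h⟩⟩
  rw [this]
  omega

lemma fam_alpha (k : ℕ) (hk : 3 ≤ k) : alpha (k - 1) (fam k) ≤ 2 * k - 1 := by
  classical
  unfold alpha
  apply csSup_le'
  rintro x ⟨S, hS, rfl⟩
  by_contra hlt
  push Not at hlt
  -- at most one vertex is missing
  have hcompl : Sᶜ.ncard ≤ 1 := by
    have h1 := Set.ncard_add_ncard_compl S
    rw [Nat.card_eq_fintype_card, Fintype.card_fin] at h1
    omega
  have hmiss : ∀ u v : Fin (2 * k + 1), u ∉ S → v ∉ S → u = v := by
    intro u v hu hv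
    exact (Set.ncard_le_one (Set.toFinite _)).1 hcompl u hu v hv
  by_cases hA : ∀ v : Fin (2 * k + 1), v.1 ≤ k → v ∈ S
  · -- the clique
    refine fam_core k (by omega) S (Finset.range (k + 1)) ⟨0, by simp⟩ ?_ ?_
      (fun j => (Finset.range (k + 1)).erase j) ?_ hS
    · intro j hj; simp at hj; omega
    · intro v hv; simp at hv; exact hA v (by omega)
    · intro j hj
      refine ⟨?_, Finset.erase_subset _ _, ?_⟩
      · rw [Finset.card_erase_of_mem hj, Finset.card_range]; omega
      · intro i hi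
        simp only [Finset.mem_erase, Finset.mem_range] at hi hj
        unfold adjLt
        omega
  · push Not at hA
    obtain ⟨a, hak, haS⟩ := hA
    have hin : ∀ v : Fin (2 * k + 1), v.1 ≠ a.1 → v ∈ S := by
      intro v hv
      by_contra hvS
      exact hv (congrArg Fin.val (hmiss v a hvS haS))
    by_cases ha : a.1 = 0 ∨ a.1 = 2
    · -- core: the clique without `a`, together with `k + 1` and `k + 2`
      obtain ⟨b, hb, hb1⟩ : ∃ b, (a.1 = 0 ∧ b = 2 ∨ a.1 = 2 ∧ b = 0) ∧ b ≤ k := by
        rcases ha with h | h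
        · exact ⟨2, Or.inl ⟨h, rfl⟩, by omega⟩
        · exact ⟨0, Or.inr ⟨h, rfl⟩, by omega⟩
      -- the vertex missed by `j`
      let f : ℕ → ℕ := fun j => if j = 1 then k + 1 else if j = k + 1 then 1 else
        if j = b then k + 2 else if j = k + 2 then b else if j = 3 then 1 else 3
      refine fam_core k (by omega) S ((Finset.range (k + 3)).erase a.1) ⟨1, ?_⟩ ?_ ?_
        (fun j => (((Finset.range (k + 3)).erase a.1).erase j).erase (f j)) ?_ hS
      · simp only [Finset.mem_erase, Finset.mem_range]; omega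
      · intro j hj; simp only [Finset.mem_erase, Finset.mem_range] at hj; omega
      · intro v hv; simp only [Finset.mem_erase, Finset.mem_range] at hv; exact hin v hv.1
      · intro j hj
        refine ⟨?_, ?_, ?_⟩
        · have h1 : (Finset.range (k + 3)).card = k + 3 := Finset.card_range _
          have h2 : ((Finset.range (k + 3)).erase a.1).card = k + 2 := by
            rw [Finset.card_erase_of_mem (by simp; omega), h1]; omega
          have h3 : (((Finset.range (k + 3)).erase a.1).erase j).card = k + 1 := by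
            rw [Finset.card_erase_of_mem hj, h2]; omega
          have h4 := Finset.pred_card_le_card_erase
            (s := ((Finset.range (k + 3)).erase a.1).erase j) (a := f j)
          omega
        · exact (Finset.erase_subset _ _).trans (Finset.erase_subset _ _)
        · intro i hi
          simp only [Finset.mem_erase, Finset.mem_range, f] at hi hj
          unfold adjLt
          split_ifs at hi <;> omega
    · -- core: the clique without `a`, together with `k + a`
      refine fam_core k (by omega) S (insert (k + a.1) ((Finset.range (k + 1)).erase a.1))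
        ⟨k + a.1, by simp⟩ ?_ ?_
        (fun j => (insert (k + a.1) ((Finset.range (k + 1)).erase a.1)).erase j) ?_ hS
      · intro j hj
        simp only [Finset.mem_insert, Finset.mem_erase, Finset.mem_range] at hj; omega
      · intro v hv
        simp only [Finset.mem_insert, Finset.mem_erase, Finset.mem_range] at hv
        exact hin v (by omega)
      · intro j hj
        refine ⟨?_, Finset.erase_subset _ _, ?_⟩
        · rw [Finset.card_erase_of_mem hj, Finset.card_insert_of_notMem (by
              simp only [Finset.mem_erase, Finset.mem_range]; omega),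
            Finset.card_erase_of_mem (by simp; omega), Finset.card_range]
          omega
        · intro i hi
          simp only [Finset.mem_insert, Finset.mem_erase, Finset.mem_range] at hi hj
          unfold adjLt
          omega

/-- The formula `α_d(k) = (d+1)/(k+1)` fails for `d = k - 1` for every `k ≥ 3`, and it fails also
for `(k,d) = (4,1)` and `(4,2)`. -/
theorem result :
    (∀ k : ℕ, 3 ≤ k → (∃ G : SimpleGraph (Fin (2 * k + 1)), degeneracy G = k ∧
        alpha (k - 1) G ≤ 2 * k - 1) ∧
      alphaInf (k - 1) k ≤ (2 * k - 1 : ℝ) / (2 * k + 1) ∧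
      (2 * k - 1 : ℝ) / (2 * k + 1) < ((k - 1 : ℕ) + 1 : ℝ) / (k + 1)) ∧
    (alphaInf 2 3 ≤ 9 / 13 ∧ (9 / 13 : ℝ) < (2 + 1) / (3 + 1)) ∧
    (alphaInf 1 4 ≤ 5 / 13 ∧ (5 / 13 : ℝ) < (1 + 1) / (4 + 1)) ∧
    (alphaInf 2 4 ≤ 5 / 9 ∧ (5 / 9 : ℝ) < (2 + 1) / (4 + 1)) ∧
    ¬ (∀ k d : ℕ, 3 ≤ k → d < k → alphaInf d k = ((d : ℝ) + 1) / ((k : ℝ) + 1)) := by
  have h32 : alphaInf 2 3 ≤ 9 / 13 := by
    have := alphaInf_le (ofMasks 13 adjA) 2 3 9 (by norm_num) degA alphaA
    norm_num at this
    linarith
  have h41 : alphaInf 1 4 ≤ 5 / 13 := by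
    have := alphaInf_le (ofMasks 13 adjB) 1 4 5 (by norm_num) degB alphaB
    norm_num at this
    linarith
  have h42 : alphaInf 2 4 ≤ 5 / 9 := by
    have := alphaInf_le (ofMasks 9 adjC) 2 4 5 (by norm_num) degC alphaC
    norm_num at this
    linarith
  refine ⟨?_, ⟨h32, by norm_num⟩, ⟨h41, by norm_num⟩, ⟨h42, by norm_num⟩, ?_⟩
  · intro k hk
    refine ⟨⟨fam k, fam_degeneracy k (by omega), fam_alpha k hk⟩, ?_, ?_⟩
    · have := alphaInf_le (fam k) (k - 1) k (2 * k - 1) (by omega) (fam_degeneracy k (by omega))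
        (fam_alpha k hk)
      have h1 : ((2 * k - 1 : ℕ) : ℝ) = 2 * k - 1 := by
        rw [Nat.cast_sub (by omega)]; push_cast; ring
      rw [h1] at this
      push_cast at this
      exact this
    · have hk' : (3 : ℝ) ≤ k := by exact_mod_cast hk
      rw [Nat.cast_sub (by omega)]
      rw [div_lt_div_iff₀ (by linarith) (by linarith)]
      push_cast
      nlinarith
  · intro h
    have := h 3 2 (by norm_num) (by norm_num)
    norm_num at this
    linarith

end Pool.Agent.Results.MP_f95752_co.SmallCounterexamples
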